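import Pool.Agent.Work.MP_376faf_co_sum.Geo

/-! The cylinder: covering weights, and the inequality at subcritical weights. -/

set_option autoImplicit false

namespace Pool.Agent.Work.MP_376faf_co_sum

open Pool.Agent.Work.MP_376faf_co

/-- number of rows met by a list of points -/
def nrows (Q : List Pt) : ℕ := (Q.toFinset.image Prod.snd).card

/-- number of columns met by a list of points -/
def ncols (Q : List Pt) : ℕ := (Q.toFinset.image Prod.fst).card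

theorem card_cover {M : ℕ} [NeZero M] {Q : List Pt} (hQ : Canon Q)
    (hM : ∀ z ∈ Q, z.2 < M) (r : ZMod M) [DecidablePred fun b : ZMod M =>
      ∃ z ∈ Q, ((z.2 : ℤ) : ZMod M) + b = r] :
    nrows Q ≤ (Finset.univ.filter (fun b : ZMod M =>
      ∃ z ∈ Q, ((z.2 : ℤ) : ZMod M) + b = r)).card := by
  unfold nrows
  refine Finset.card_le_card_of_injOn (fun y => r - ((y : ℤ) : ZMod M)) ?_ ?_
  · intro y hy
    simp only [Finset.coe_image, Set.mem_image, Finset.mem_coe, List.mem_toFinset] at hy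
    obtain ⟨z, hz, rfl⟩ := hy
    simp only [Finset.coe_filter, Finset.mem_univ, true_and, Set.mem_setOf_eq]
    exact ⟨z, hz, by ring⟩
  · intro y1 h1 y2 h2 he
    simp only [Finset.coe_image, Set.mem_image, Finset.mem_coe, List.mem_toFinset] at h1 h2
    obtain ⟨z1, hz1, rfl⟩ := h1
    obtain ⟨z2, hz2, rfl⟩ := h2
    have he' : ((z1.2 : ℤ) : ZMod M) = ((z2.2 : ℤ) : ZMod M) := by
      simpa using he
    rw [ZMod.intCast_eq_intCast_iff, Int.ModEq] at he'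
    have a1 := hQ.low z1 hz1
    have a2 := hQ.low z2 hz2
    rwa [Int.emod_eq_of_lt a1 (hM z1 hz1), Int.emod_eq_of_lt a2 (hM z2 hz2)] at he'

theorem ineqS {x κ : ℝ} (hx : 0 < x) (hκ : WalkBound x κ) (𝒬 : Finset (List Pt))
    (h𝒬 : ∀ Q ∈ 𝒬, Canon Q) : ∑ Q ∈ 𝒬, nrows Q * x ^ Q.length ≤ x⁻¹ ^ 2 := by
  classical
  rcases 𝒬.eq_empty_or_nonempty with rfl | ⟨Q0, hQ0⟩
  · simp
    positivity
  obtain ⟨M, hM0, hM⟩ : ∃ M : ℕ, 0 < M ∧ ∀ Q ∈ 𝒬, ∀ z ∈ Q, z.2 < M := by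
    refine ⟨hmax 𝒬 id + 1, by omega, fun Q hQ z hz => ?_⟩
    have := le_hmax 𝒬 id hQ hz
    push_cast; omega
  have : NeZero M := ⟨hM0.ne'⟩
  set D : Finset (Ltr M) := 𝒬 ×ˢ (Finset.univ : Finset (ZMod M)) with hD
  have hcan : ∀ t : D, Canon (t.1).1 := fun t => h𝒬 _ (Finset.mem_product.1 t.2).1
  set a0 : D := ⟨(Q0, 0), by simp [hD, hQ0]⟩ with ha0
  refine counting (T := D) (mT (Subtype.val : D → Ltr M)) a0 (fun t => x ^ t.1.1.length)
    (fun t => by positivity) _ _ (κ ^ 3 / x ^ wt ([0], [0], (a0.1).1)) (by positivity) ?_ ?_ ?_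
  · have hz : (0 : Pt) ∈ a0.1.1 := (hcan a0).zero_mem
    have := le_mL (a := a0.1) (a' := a0.1) (p := 0) (q := 0) ⟨hz, hz, rfl⟩
    intro h0
    change mL a0.1 a0.1 = ⊥ at h0
    rw [h0] at this
    simp at this
  · intro a b hab
    obtain ⟨p, q, ⟨hp, hq, hpq⟩, hval⟩ := mL_att (a := a.1) (a' := b.1) hab
    set r : ZMod M := ((p.2 : ℤ) : ZMod M) + a.1.2 with hr
    refine ⟨Finset.univ.filter (fun c : D => ∃ z ∈ c.1.1, ((z.2 : ℤ) : ZMod M) + c.1.2 = r),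
      ?_, ?_⟩
    · intro c hc
      rw [Finset.mem_filter] at hc
      obtain ⟨-, z, hz, hzr⟩ := hc
      have e1 := le_mL (a := a.1) (a' := c.1) (p := p) (q := z) ⟨hp, hz, hzr.symm⟩
      have e2 := le_mL (a := c.1) (a' := b.1) (p := z) (q := q) ⟨hz, hq, hzr.trans hpq⟩
      change mL a.1 b.1 < mL a.1 c.1 + mL c.1 b.1
      rw [hval]
      refine lt_of_lt_of_le ?_ (add_le_add e1 e2)
      rw [← WithBot.coe_add, WithBot.coe_lt_coe]
      omega
    · rw [Finset.sum_filter]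
      rw [Finset.sum_coe_sort D (fun c : Ltr M =>
        if ∃ z ∈ c.1, ((z.2 : ℤ) : ZMod M) + c.2 = r then x ^ c.1.length else 0)]
      rw [hD, Finset.sum_product]
      refine Finset.sum_le_sum (fun Q hQ => ?_)
      simp only
      rw [← Finset.sum_filter, Finset.sum_const, nsmul_eq_mul]
      exact mul_le_mul_of_nonneg_right (by exact_mod_cast card_cover (h𝒬 Q hQ) (hM Q hQ) r)
        (by positivity)
  · intro l F hF
    exact valid_bound (Subtype.val : D → Ltr M) a0 Subtype.val_injective hcan rfl hx hκ l F hF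

theorem critS {μ : ℝ} (hμ : IsMu μ) (𝒬 : Finset (List Pt)) (h𝒬 : ∀ Q ∈ 𝒬, Canon Q) :
    ∑ Q ∈ 𝒬, nrows Q * μ⁻¹ ^ Q.length ≤ μ ^ 2 := by
  have hμ0 : 0 < μ := by have := hμ.1; linarith
  have h := crit_limit hμ (fun x => x ^ 2 * ∑ Q ∈ 𝒬, nrows Q * x ^ Q.length) (by fun_prop)
    (fun x hx ⟨κ, hκ⟩ => by
      have := ineqS hx hκ 𝒬 h𝒬
      calc x ^ 2 * ∑ Q ∈ 𝒬, nrows Q * x ^ Q.length ≤ x ^ 2 * x⁻¹ ^ 2 :=
            mul_le_mul_of_nonneg_left this (by positivity)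
        _ = 1 := by rw [← mul_pow, mul_inv_cancel₀ hx.ne', one_pow])
  have h2 : μ⁻¹ ^ 2 * ∑ Q ∈ 𝒬, nrows Q * μ⁻¹ ^ Q.length =
      (∑ Q ∈ 𝒬, nrows Q * μ⁻¹ ^ Q.length) / μ ^ 2 := by
    field_simp
  rw [h2, div_le_one (by positivity)] at h
  exact h

end Pool.Agent.Work.MP_376faf_co_sum
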