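import Pool.Agent.Work.MP_376faf_co_sum.Cyl

/-! Height-weighted sums over polygons. -/

set_option autoImplicit false

namespace Pool.Agent.Work.MP_376faf_co_sum

open Pool.Agent.Work.MP_376faf_co Filter Topology

/-- number of rows met by a closed path -/
noncomputable def rowsF {n : ℕ} (f : ZMod (2*n) → ℤ × ℤ) : ℕ :=
  Set.ncard (Set.range fun i => (f i).2)

/-- number of columns met by a closed path -/
noncomputable def colsF {n : ℕ} (f : ZMod (2*n) → ℤ × ℤ) : ℕ :=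
  Set.ncard (Set.range fun i => (f i).1)

/-- sum of the numbers of rows -/
noncomputable def rowTot (n : ℕ) : ℝ := ∑ᶠ f : PolyFun n, (rowsF f.1 : ℝ)

theorem rows_canon {n : ℕ} [NeZero (2*n)] (f : ZMod (2*n) → ℤ × ℤ) (j : ZMod (2*n)) :
    nrows (canonList f j) = rowsF f := by
  unfold nrows rowsF
  rw [← Set.ncard_coe_finset]
  have h : ((((canonList f j).toFinset.image Prod.snd : Finset ℤ)) : Set ℤ) =
      (fun y => y - (f j).2) '' (Set.range fun i => (f i).2) := by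
    ext y
    simp only [Finset.coe_image, Set.mem_image, Finset.mem_coe, List.mem_toFinset, canonList_mem,
      Set.mem_range]
    constructor
    · rintro ⟨x, ⟨i, rfl⟩, rfl⟩
      exact ⟨_, ⟨i, rfl⟩, rfl⟩
    · rintro ⟨_, ⟨i, rfl⟩, rfl⟩
      exact ⟨_, ⟨i, rfl⟩, rfl⟩
  rw [h, Set.ncard_image_of_injective _ (sub_left_injective)]

theorem row_count {n : ℕ} (hn : 2 ≤ n) : ∃ 𝒬 : Finset (List Pt),
    (∀ Q ∈ 𝒬, Canon Q ∧ Q.length = 2 * n) ∧
      rowTot n ≤ 2 * n * ∑ Q ∈ 𝒬, (nrows Q : ℝ) := by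
  classical
  have : NeZero (2 * n) := ⟨by omega⟩
  have := polyFinite (n := n) (by omega)
  have : Fintype (PolyFun n) := Fintype.ofFinite _
  choose j hj using fun f : PolyFun n => exists_argmin f
  set 𝒬 : Finset (List Pt) := Finset.univ.image (fun f : PolyFun n => canonList f.1 (j f))
    with h𝒬
  refine ⟨𝒬, ?_, ?_⟩
  · intro Q hQ
    obtain ⟨f, -, rfl⟩ := Finset.mem_image.1 hQ
    exact ⟨canonList_canon hn _ _ (hj _), by simp [canonList]⟩
  · have h1 : rowTot n = ∑ f : PolyFun n, (nrows (canonList f.1 (j f)) : ℝ) := by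
      unfold rowTot
      rw [finsum_eq_sum_of_fintype]
      exact Finset.sum_congr rfl (fun f _ => by rw [rows_canon])
    let φ : PolyFun n → List Pt × ZMod (2*n) := fun f => (canonList f.1 (j f), j f)
    have hinj : Function.Injective φ := by
      intro f g h
      simp only [φ, Prod.mk.injEq] at h
      obtain ⟨h1, h2⟩ := h
      rw [h2] at h1
      exact canonList_inj h1
    have h2 : ∑ f : PolyFun n, (nrows (canonList f.1 (j f)) : ℝ) =
        ∑ y ∈ Finset.univ.image φ, (nrows y.1 : ℝ) := by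
      rw [Finset.sum_image (fun a _ b _ hab => hinj hab)]
    have h3 : Finset.univ.image φ ⊆ 𝒬 ×ˢ (Finset.univ : Finset (ZMod (2*n))) := by
      intro y hy
      obtain ⟨f, -, rfl⟩ := Finset.mem_image.1 hy
      rw [Finset.mem_product]
      exact ⟨Finset.mem_image_of_mem _ (Finset.mem_univ f), Finset.mem_univ _⟩
    rw [h1, h2]
    refine (Finset.sum_le_sum_of_subset_of_nonneg h3 (fun _ _ _ => Nat.cast_nonneg _)).trans
      (le_of_eq ?_)
    rw [Finset.sum_product, Finset.mul_sum]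
    refine Finset.sum_congr rfl (fun Q _ => ?_)
    simp only [Finset.sum_const, Finset.card_univ, ZMod.card, nsmul_eq_mul]
    push_cast
    ring

theorem area {n : ℕ} [NeZero (2*n)] (f : PolyFun n) : 2 * n ≤ colsF f.1 * rowsF f.1 := by
  have h1 : (Set.range f.1).ncard = 2 * n := by
    rw [← Set.image_univ, Set.ncard_image_of_injective _ f.2.2.1, Set.ncard_univ, Nat.card_zmod]
  have hsub : Set.range f.1 ⊆ (Set.range fun i => (f.1 i).1) ×ˢ (Set.range fun i => (f.1 i).2) := by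
    rintro _ ⟨i, rfl⟩
    exact ⟨⟨i, rfl⟩, ⟨i, rfl⟩⟩
  have h2 := Set.ncard_le_ncard hsub ((Set.finite_range _).prod (Set.finite_range _))
  rw [h1, Set.ncard_prod] at h2
  exact h2

theorem sqrt_row {n : ℕ} (hn : 1 ≤ n) : √(2 * n) * (Nat.card (PolyFun n) : ℝ) ≤ rowTot n := by
  classical
  have : NeZero (2 * n) := ⟨by omega⟩
  have := polyFinite (n := n) (by omega)
  have : Fintype (PolyFun n) := Fintype.ofFinite _
  let sw : PolyFun n → PolyFun n := fun f => ⟨fun i => (f.1 i).swap, by simp [f.2.1], by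
    refine ⟨fun i k h => f.2.2.1 (Prod.swap_injective h), fun i => ?_⟩
    have := f.2.2.2 i
    simp only [Prod.fst_swap, Prod.snd_swap]
    rw [add_comm]; exact this⟩
  have hsw : Function.Involutive sw := by
    intro f
    apply Subtype.ext
    funext i
    simp [sw]
  have hrow : ∀ f, rowsF (sw f).1 = colsF f.1 := by
    intro f
    simp [rowsF, colsF, sw]
  have h1 : rowTot n = ∑ f : PolyFun n, (rowsF f.1 : ℝ) := by
    unfold rowTot
    rw [finsum_eq_sum_of_fintype]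
  have h2 : rowTot n = ∑ f : PolyFun n, (colsF f.1 : ℝ) := by
    rw [h1, ← Equiv.sum_comp (hsw.toPerm sw)]
    exact Finset.sum_congr rfl (fun f _ => by
      simp only [Function.Involutive.coe_toPerm]
      rw [hrow])
  have h3 : ∀ f : PolyFun n, 2 * √(2 * n) ≤ (rowsF f.1 : ℝ) + colsF f.1 := by
    intro f
    have h := area f
    have h' : (2 * n : ℝ) ≤ (colsF f.1 : ℝ) * rowsF f.1 := by exact_mod_cast h
    have ha : (0:ℝ) ≤ rowsF f.1 := Nat.cast_nonneg _
    have hb : (0:ℝ) ≤ colsF f.1 := Nat.cast_nonneg _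
    have h4 : √(2 * n) ≤ ((rowsF f.1 : ℝ) + colsF f.1) / 2 := by
      rw [Real.sqrt_le_left (by positivity)]
      nlinarith [sq_nonneg ((rowsF f.1 : ℝ) - colsF f.1)]
    linarith
  have h4 : ∑ f : PolyFun n, 2 * √(2 * n) ≤ ∑ f : PolyFun n, ((rowsF f.1 : ℝ) + colsF f.1) :=
    Finset.sum_le_sum (fun f _ => h3 f)
  rw [Finset.sum_add_distrib, ← h1, ← h2, Finset.sum_const, nsmul_eq_mul, Finset.card_univ] at h4
  rw [Nat.card_eq_fintype_card]
  linarith

noncomputable def rr (μ : ℝ) (n : ℕ) : ℝ := rowTot n / (4 * (n:ℝ)) / μ ^ (2*n)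

theorem rr_nonneg {μ : ℝ} (hμ : 1 ≤ μ) (n : ℕ) : 0 ≤ rr μ n := by
  unfold rr rowTot
  have : 0 < μ := by linarith
  have : 0 ≤ ∑ᶠ f : PolyFun n, (rowsF f.1 : ℝ) :=
    finsum_nonneg (fun f => Nat.cast_nonneg (rowsF f.1))
  positivity

theorem rr_sum_le {μ : ℝ} (hμ : IsMu μ) (F : Finset ℕ) (hF : ∀ n ∈ F, 2 ≤ n) :
    ∑ n ∈ F, rr μ n ≤ μ ^ 2 / 2 := by
  classical
  have hμ0 : 0 < μ := by have := hμ.1; linarith
  have hex : ∀ n : ℕ, ∃ 𝒬 : Finset (List Pt), 2 ≤ n →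
      (∀ Q ∈ 𝒬, Canon Q ∧ Q.length = 2 * n) ∧
      rowTot n ≤ 2 * n * ∑ Q ∈ 𝒬, (nrows Q : ℝ) := by
    intro n
    by_cases hn : 2 ≤ n
    · obtain ⟨𝒬, h⟩ := row_count hn
      exact ⟨𝒬, fun _ => h⟩
    · exact ⟨∅, fun h => absurd h hn⟩
  choose 𝒬 h𝒬 using hex
  have hterm : ∀ n ∈ F, rr μ n ≤ (∑ Q ∈ 𝒬 n, nrows Q * μ⁻¹ ^ Q.length) / 2 := by
    intro n hn
    have hn2 := hF n hn
    have h2 := (h𝒬 n hn2).2
    have hn0 : (0:ℝ) < n := by exact_mod_cast (by omega : 0 < n)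
    have h6 : ∑ Q ∈ 𝒬 n, (nrows Q : ℝ) * μ⁻¹ ^ Q.length =
        (∑ Q ∈ 𝒬 n, (nrows Q : ℝ)) / μ ^ (2 * n) := by
      rw [Finset.sum_congr rfl (fun Q hQ => by rw [((h𝒬 n hn2).1 Q hQ).2])]
      rw [← Finset.sum_mul, inv_pow, div_eq_mul_inv]
    rw [h6]
    unfold rr
    have e : (∑ Q ∈ 𝒬 n, (nrows Q : ℝ)) / μ ^ (2 * n) / 2 =
        (∑ Q ∈ 𝒬 n, (nrows Q : ℝ)) / 2 / μ ^ (2 * n) := by ring
    rw [e]
    have hp : (0:ℝ) ≤ μ ^ (2 * n) := by positivity
    refine div_le_div_of_nonneg_right ?_ hp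
    rw [div_le_div_iff₀ (by positivity) (by norm_num)]
    nlinarith
  calc ∑ n ∈ F, rr μ n ≤ ∑ n ∈ F, (∑ Q ∈ 𝒬 n, nrows Q * μ⁻¹ ^ Q.length) / 2 :=
        Finset.sum_le_sum hterm
    _ = (∑ Q ∈ F.biUnion 𝒬, nrows Q * μ⁻¹ ^ Q.length) / 2 := by
        rw [← Finset.sum_div, Finset.sum_biUnion]
        intro i hi j hj hij
        rw [Function.onFun, Finset.disjoint_left]
        intro Q h1 h2
        have e1 := ((h𝒬 i (hF i hi)).1 Q h1).2
        have e2 := ((h𝒬 j (hF j hj)).1 Q h2).2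
        omega
    _ ≤ μ ^ 2 / 2 := by
        refine div_le_div_of_nonneg_right (critS hμ _ (fun Q hQ => ?_)) (by norm_num)
        obtain ⟨n, hn, hQn⟩ := Finset.mem_biUnion.1 hQ
        exact ((h𝒬 n (hF n hn)).1 Q hQn).1

theorem rr_summable {μ : ℝ} (hμ : IsMu μ) : Summable (fun n => rr μ (n + 2)) := by
  refine summable_of_sum_le (c := μ ^ 2 / 2) (fun n => rr_nonneg hμ.1 _) (fun u => ?_)
  have h := rr_sum_le hμ (u.image (fun n => n + 2)) (by
      intro n hn
      obtain ⟨k, -, rfl⟩ := Finset.mem_image.1 hn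
      omega)
  rw [Finset.sum_image (fun a _ b _ hab => by simpa using hab)] at h
  exact h

theorem rr_tsum {μ : ℝ} (hμ : IsMu μ) : ∑' n, rr μ (n + 2) ≤ μ ^ 2 / 2 := by
  refine (rr_summable hμ).tsum_le_of_sum_le (fun u => ?_)
  have h := rr_sum_le hμ (u.image (fun n => n + 2)) (by
      intro n hn
      obtain ⟨k, -, rfl⟩ := Finset.mem_image.1 hn
      omega)
  rw [Finset.sum_image (fun a _ b _ hab => by simpa using hab)] at h
  exact h

end Pool.Agent.Work.MP_376faf_co_sum
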