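import Mathlib

/-! Heaps of pieces: positions, chains of supports and the counting inequality. -/

set_option autoImplicit false

namespace Pool.Agent.Work.MP_376faf_co_sum

section Heap

variable {T : Type*} (m : T → T → WithBot ℤ) (a0 : T)

/-- position of a letter dropped after the word (most recent letter first) -/
def pos : List T → T → WithBot ℤ
  | [], B => m a0 B
  | c :: u, B => max (pos u B) (pos u c + m c B)

open Classical in
/-- the chain of supports -/
noncomputable def chain : List T → T → List T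
  | [], _ => []
  | c :: u, B => if pos m a0 u B < pos m a0 u c + m c B then c :: chain u c else chain u B

/-- last bead of a chain -/
def lastB : List T → T
  | [] => a0
  | c :: _ => c

/-- position of the last bead of a chain -/
def XX : List T → WithBot ℤ
  | [] => 0
  | c :: g => pos m a0 g c

def Valid : List T → Prop
  | [] => True
  | c :: g => Valid g ∧ pos m a0 g c = XX m a0 g + m (lastB a0 g) c ∧ pos m a0 g c ≠ ⊥

/-! ### properties of the chain of supports -/

theorem pos_nil (B : T) : pos m a0 [] B = m a0 B := rfl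

theorem pos_cons (c : T) (u : List T) (B : T) :
    pos m a0 (c :: u) B = max (pos m a0 u B) (pos m a0 u c + m c B) := rfl

theorem pos_mono {g u : List T} (h : g.Sublist u) (B : T) : pos m a0 g B ≤ pos m a0 u B := by
  induction h generalizing B with
  | slnil => exact le_rfl
  | cons c _ ih =>
    rw [pos_cons]
    exact (ih B).trans (le_max_left _ _)
  | cons_cons c _ ih =>
    rw [pos_cons, pos_cons]
    exact max_le_max (ih B) (by gcongr; exact ih c)

theorem chain_cons_pos {c : T} {u : List T} {B : T}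
    (h : pos m a0 u B < pos m a0 u c + m c B) : chain m a0 (c :: u) B = c :: chain m a0 u c := by
  rw [chain, if_pos h]

theorem chain_cons_neg {c : T} {u : List T} {B : T}
    (h : ¬ pos m a0 u B < pos m a0 u c + m c B) : chain m a0 (c :: u) B = chain m a0 u B := by
  rw [chain, if_neg h]

theorem chain_sublist (u : List T) (B : T) : (chain m a0 u B).Sublist u := by
  induction u generalizing B with
  | nil => exact List.Sublist.refl _
  | cons c u ih =>
    by_cases h : pos m a0 u B < pos m a0 u c + m c B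
    · rw [chain_cons_pos m a0 h]
      exact (ih c).cons_cons c
    · rw [chain_cons_neg m a0 h]
      exact (ih B).cons c

theorem pos_chain (u : List T) (B : T) : pos m a0 (chain m a0 u B) B = pos m a0 u B := by
  induction u generalizing B with
  | nil => rfl
  | cons c u ih =>
    by_cases h : pos m a0 u B < pos m a0 u c + m c B
    · rw [chain_cons_pos m a0 h, pos_cons, pos_cons, ih c, max_eq_right h.le, max_eq_right]
      exact (pos_mono m a0 (chain_sublist m a0 u c) B).trans h.le
    · rw [chain_cons_neg m a0 h, ih B, pos_cons, max_eq_left (not_lt.mp h)]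

theorem chain_valid (u : List T) (B : T) (hB : pos m a0 u B ≠ ⊥) :
    Valid m a0 (chain m a0 u B) ∧
      pos m a0 u B = XX m a0 (chain m a0 u B) + m (lastB a0 (chain m a0 u B)) B := by
  induction u generalizing B with
  | nil =>
    refine ⟨trivial, ?_⟩
    rw [pos_nil, chain, XX, lastB, zero_add]
  | cons c u ih =>
    by_cases h : pos m a0 u B < pos m a0 u c + m c B
    · have hc : pos m a0 u c ≠ ⊥ := by
        intro h0
        rw [h0, WithBot.bot_add] at h
        exact not_lt_bot h
      obtain ⟨h1, h2⟩ := ih c hc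
      rw [chain_cons_pos m a0 h]
      refine ⟨⟨h1, ?_, ?_⟩, ?_⟩
      · rw [pos_chain, h2]
      · rw [pos_chain]
        exact hc
      · rw [pos_cons, max_eq_right h.le, XX, lastB, pos_chain]
    · rw [pos_cons, max_eq_left (not_lt.mp h)] at hB
      rw [chain_cons_neg m a0 h, pos_cons, max_eq_left (not_lt.mp h)]
      exact ih B hB

theorem XX_add_le (g : List T) (c : T) : XX m a0 g + m (lastB a0 g) c ≤ pos m a0 g c := by
  cases g with
  | nil => rw [XX, lastB, zero_add, pos_nil]
  | cons d g =>
    rw [XX, lastB, pos_cons]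
    exact le_max_right _ _

/-- a skipped letter is not in the forbidden set -/
theorem skipped {c : T} {u : List T} {B : T} (hB : pos m a0 u B ≠ ⊥)
    (h : ¬ pos m a0 u B < pos m a0 u c + m c B) :
    ¬ m (lastB a0 (chain m a0 u B)) B <
      m (lastB a0 (chain m a0 u B)) c + m c B := by
  set g := chain m a0 u B with hg
  set d := lastB a0 g with hd
  have h1 : pos m a0 u B = XX m a0 g + m d B := (chain_valid m a0 u B hB).2
  have hX : XX m a0 g ≠ ⊥ := by
    intro h0
    rw [h0, WithBot.bot_add] at h1
    exact hB h1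
  have h2 : XX m a0 g + m d c ≤ pos m a0 u c :=
    (XX_add_le m a0 g c).trans (pos_mono m a0 (chain_sublist m a0 u B) c)
  have h3 : XX m a0 g + (m d c + m c B) ≤ XX m a0 g + m d B := by
    rw [← h1, ← add_assoc]
    refine le_trans ?_ (not_lt.mp h)
    gcongr
  rw [not_lt]
  exact (WithBot.add_le_add_iff_left hX).mp h3

end Heap

/-! ### counting words -/

section Count

variable {T : Type*} [Fintype T]

open Classical in
/-- words of length `N` -/
noncomputable def Wd (T : Type*) [Fintype T] : ℕ → Finset (List T)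
  | 0 => {[]}
  | N + 1 => (Finset.univ ×ˢ Wd T N).image (fun p => p.1 :: p.2)

open Classical in
theorem sum_Wd_succ (N : ℕ) (f : List T → ℝ) :
    ∑ u ∈ Wd T (N + 1), f u = ∑ c, ∑ u ∈ Wd T N, f (c :: u) := by
  rw [Wd, Finset.sum_image, Finset.sum_product]
  rintro ⟨a, b⟩ - ⟨c, d⟩ - h
  simp only [List.cons.injEq] at h
  rw [h.1, h.2]

open Classical in
theorem length_Wd (N : ℕ) (u : List T) (h : u ∈ Wd T N) : u.length = N := by
  induction N generalizing u with
  | zero =>
    rw [Wd, Finset.mem_singleton] at h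
    rw [h, List.length_nil]
  | succ N ih =>
    rw [Wd, Finset.mem_image] at h
    obtain ⟨⟨c, v⟩, hv, rfl⟩ := h
    rw [List.length_cons, ih v (Finset.mem_product.mp hv).2]

theorem sum_all (w : T → ℝ) (N : ℕ) :
    ∑ u ∈ Wd T N, (u.map w).prod = (∑ c, w c) ^ N := by
  induction N with
  | zero => simp [Wd]
  | succ N ih =>
    rw [sum_Wd_succ]
    simp only [List.map_cons, List.prod_cons]
    rw [pow_succ, ← ih, mul_comm, Finset.sum_mul]
    exact Finset.sum_congr rfl fun c _ => (Finset.mul_sum _ _ _).symm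

variable (m : T → T → WithBot ℤ) (a0 : T) (w : T → ℝ)

open Classical in
/-- weight of the words with a given chain of supports -/
noncomputable def cw (N : ℕ) (g : List T) (B : T) : ℝ :=
  ∑ u ∈ Wd T N, if chain m a0 u B = g ∧ pos m a0 u B ≠ ⊥ then (u.map w).prod else 0

variable {m a0 w}

omit [Fintype T] in
theorem prod_nonneg (hw : ∀ t, 0 ≤ w t) (u : List T) : 0 ≤ (u.map w).prod := by
  induction u with
  | nil => simp
  | cons c u ih =>
    rw [List.map_cons, List.prod_cons]
    exact mul_nonneg (hw c) ih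

theorem cw_nonneg (hw : ∀ t, 0 ≤ w t) (N : ℕ) (g : List T) (B : T) : 0 ≤ cw m a0 w N g B := by
  refine Finset.sum_nonneg fun u _ => ?_
  split_ifs
  · exact prod_nonneg hw u
  · exact le_rfl

open Classical in
/-- weight of the words with a given chain, the most recent letter being skipped -/
theorem skip_le (hw : ∀ t, 0 ≤ w t) {L : ℝ}
    (hcov : ∀ a b, m a b ≠ ⊥ → ∃ S : Finset T, (∀ c ∈ S, m a b < m a c + m c b) ∧
      L ≤ ∑ c ∈ S, w c) (N : ℕ) (g : List T) (B : T) :
    ∑ c, ∑ u ∈ Wd T N, (if (chain m a0 u B = g ∧ pos m a0 u B ≠ ⊥) ∧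
      ¬ pos m a0 u B < pos m a0 u c + m c B then w c * (u.map w).prod else 0) ≤
      ((∑ c, w c) - L) * cw m a0 w N g B := by
  by_cases hd : m (lastB a0 g) B = ⊥
  · -- no word at all
    have h0 : ∀ u : List T, ¬ (chain m a0 u B = g ∧ pos m a0 u B ≠ ⊥) := by
      rintro u ⟨rfl, hB⟩
      have := (chain_valid m a0 u B hB).2
      rw [hd, WithBot.add_bot] at this
      exact hB this
    have h1 : ∑ c, ∑ u ∈ Wd T N, (if (chain m a0 u B = g ∧ pos m a0 u B ≠ ⊥) ∧
      ¬ pos m a0 u B < pos m a0 u c + m c B then w c * (u.map w).prod else 0) = 0 := by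
      refine Finset.sum_eq_zero fun c _ => Finset.sum_eq_zero fun u _ => ?_
      rw [if_neg]
      exact fun h => h0 u h.1
    have h2 : cw m a0 w N g B = 0 := by
      refine Finset.sum_eq_zero fun u _ => ?_
      rw [if_neg (h0 u)]
    rw [h1, h2, mul_zero]
  · obtain ⟨S, hS, hL⟩ := hcov _ _ hd
    have h1 : ∀ c, ∑ u ∈ Wd T N, (if (chain m a0 u B = g ∧ pos m a0 u B ≠ ⊥) ∧
        ¬ pos m a0 u B < pos m a0 u c + m c B then w c * (u.map w).prod else 0) ≤
        (if c ∈ S then 0 else w c) * cw m a0 w N g B := by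
      intro c
      rw [cw, Finset.mul_sum]
      refine Finset.sum_le_sum fun u _ => ?_
      by_cases h : chain m a0 u B = g ∧ pos m a0 u B ≠ ⊥
      · rw [if_pos h]
        by_cases hc : c ∈ S
        · rw [if_neg, if_pos hc, zero_mul]
          rintro ⟨-, h3⟩
          have h4 := skipped m a0 h.2 h3
          rw [h.1] at h4
          exact h4 (hS c hc)
        · rw [if_neg hc]
          split_ifs
          · exact le_rfl
          · exact mul_nonneg (hw c) (prod_nonneg hw u)
      · rw [if_neg h, if_neg (fun h' => h h'.1), mul_zero]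
    refine (Finset.sum_le_sum fun c _ => h1 c).trans ?_
    rw [← Finset.sum_mul]
    refine mul_le_mul_of_nonneg_right ?_ (cw_nonneg hw N g B)
    have h2 : (∑ c, w c) = (∑ c ∈ S, w c) + ∑ c, (if c ∈ S then 0 else w c) := by
      rw [← Finset.sum_filter_add_sum_filter_not Finset.univ (fun c => c ∈ S) w]
      congr 1
      · rw [Finset.filter_mem_eq_inter, Finset.univ_inter]
      · rw [Finset.sum_filter]
        refine Finset.sum_congr rfl fun c _ => ?_
        by_cases hc : c ∈ S
        · rw [if_pos hc, if_neg (not_not.mpr hc)]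
        · rw [if_neg hc, if_pos hc]
    linarith

theorem cw_nil (hw : ∀ t, 0 ≤ w t) {L : ℝ}
    (hcov : ∀ a b, m a b ≠ ⊥ → ∃ S : Finset T, (∀ c ∈ S, m a b < m a c + m c b) ∧
      L ≤ ∑ c ∈ S, w c) (N : ℕ) (B : T) :
    cw m a0 w (N + 1) [] B ≤ ((∑ c, w c) - L) * cw m a0 w N [] B := by
  classical
  refine le_trans (le_of_eq ?_) (skip_le hw hcov N [] B)
  rw [cw, sum_Wd_succ]
  refine Finset.sum_congr rfl fun c _ => Finset.sum_congr rfl fun u _ => ?_
  by_cases h : pos m a0 u B < pos m a0 u c + m c B
  · rw [chain_cons_pos m a0 h, if_neg, if_neg]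
    · exact fun h' => h'.2 h
    · rintro ⟨h', -⟩
      exact absurd h' (List.cons_ne_nil _ _)
  · rw [chain_cons_neg m a0 h, pos_cons, max_eq_left (not_lt.mp h), List.map_cons, List.prod_cons]
    by_cases h' : chain m a0 u B = [] ∧ pos m a0 u B ≠ ⊥
    · rw [if_pos h', if_pos ⟨h', h⟩]
    · rw [if_neg h', if_neg (fun h'' => h' h''.1)]

theorem cw_cons (hw : ∀ t, 0 ≤ w t) {L : ℝ}
    (hcov : ∀ a b, m a b ≠ ⊥ → ∃ S : Finset T, (∀ c ∈ S, m a b < m a c + m c b) ∧
      L ≤ ∑ c ∈ S, w c) (N : ℕ) (c0 : T) (g0 : List T) (B : T) :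
    cw m a0 w (N + 1) (c0 :: g0) B ≤ w c0 * cw m a0 w N g0 c0 +
      ((∑ c, w c) - L) * cw m a0 w N (c0 :: g0) B := by
  classical
  refine le_trans ?_ (add_le_add_right (skip_le hw hcov N (c0 :: g0) B) _)
  have h0 : w c0 * cw m a0 w N g0 c0 = ∑ c, ∑ u ∈ Wd T N,
      (if c = c0 then (if chain m a0 u c = g0 ∧ pos m a0 u c ≠ ⊥ then
        w c * (u.map w).prod else 0) else 0) := by
    rw [Finset.sum_eq_single c0]
    · rw [cw, Finset.mul_sum]
      refine Finset.sum_congr rfl fun u _ => ?_
      rw [if_pos rfl]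
      split_ifs
      · rfl
      · rw [mul_zero]
    · intro c _ hc
      refine Finset.sum_eq_zero fun u _ => ?_
      rw [if_neg hc]
    · intro h
      exact absurd (Finset.mem_univ _) h
  rw [h0, ← Finset.sum_add_distrib, cw, sum_Wd_succ]
  refine Finset.sum_le_sum fun c _ => ?_
  rw [← Finset.sum_add_distrib]
  refine Finset.sum_le_sum fun u _ => ?_
  have hp := prod_nonneg hw u
  have hwc := hw c
  have hq := mul_nonneg hwc hp
  by_cases h : pos m a0 u B < pos m a0 u c + m c B
  · rw [chain_cons_pos m a0 h]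
    have h5 : (if (chain m a0 u B = c0 :: g0 ∧ pos m a0 u B ≠ ⊥) ∧
        ¬ pos m a0 u B < pos m a0 u c + m c B then w c * (u.map w).prod else 0) = 0 :=
      if_neg (fun h' => h'.2 h)
    rw [h5, add_zero, List.map_cons, List.prod_cons]
    by_cases h1 : c :: chain m a0 u c = c0 :: g0 ∧ pos m a0 (c :: u) B ≠ ⊥
    · rw [if_pos h1]
      obtain ⟨h2, -⟩ := h1
      rw [List.cons.injEq] at h2
      have hc : pos m a0 u c ≠ ⊥ := by
        intro h3
        rw [h3, WithBot.bot_add] at h
        exact not_lt_bot h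
      rw [if_pos h2.1, if_pos ⟨h2.2, hc⟩]
    · rw [if_neg h1]
      split_ifs
      · exact hq
      · exact le_rfl
      · exact le_rfl
  · rw [chain_cons_neg m a0 h, pos_cons, max_eq_left (not_lt.mp h), List.map_cons, List.prod_cons]
    have h6 : 0 ≤ (if c = c0 then (if chain m a0 u c = g0 ∧ pos m a0 u c ≠ ⊥ then
        w c * (u.map w).prod else 0) else 0) := by
      split_ifs
      · exact hq
      · exact le_rfl
      · exact le_rfl
    by_cases h' : chain m a0 u B = c0 :: g0 ∧ pos m a0 u B ≠ ⊥
    · have h7 : (if (chain m a0 u B = c0 :: g0 ∧ pos m a0 u B ≠ ⊥) ∧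
          ¬ pos m a0 u B < pos m a0 u c + m c B then w c * (u.map w).prod else 0) =
          w c * (u.map w).prod := if_pos ⟨h', h⟩
      rw [if_pos h', h7]
      linarith
    · have h7 : (if (chain m a0 u B = c0 :: g0 ∧ pos m a0 u B ≠ ⊥) ∧
          ¬ pos m a0 u B < pos m a0 u c + m c B then w c * (u.map w).prod else 0) = 0 :=
        if_neg (fun h'' => h' h''.1)
      rw [if_neg h', h7]
      linarith

theorem cw_le (hw : ∀ t, 0 ≤ w t) {L : ℝ} (hL : L ≤ ∑ c, w c)
    (hcov : ∀ a b, m a b ≠ ⊥ → ∃ S : Finset T, (∀ c ∈ S, m a b < m a c + m c b) ∧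
      L ≤ ∑ c ∈ S, w c) (N : ℕ) (g : List T) (B : T) :
    cw m a0 w N g B ≤ (N.choose g.length : ℝ) * (g.map w).prod *
      ((∑ c, w c) - L) ^ (N - g.length) := by
  have hV : 0 ≤ (∑ c, w c) - L := sub_nonneg.mpr hL
  induction N generalizing g B with
  | zero =>
    rw [cw, Wd, Finset.sum_singleton]
    cases g with
    | nil =>
      split_ifs
      · simp
      · simp
    | cons c g =>
      rw [if_neg]
      · simp
      · rintro ⟨h, -⟩
        rw [chain] at h
        exact absurd h (List.cons_ne_nil _ _).symm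
  | succ N ih =>
    cases g with
    | nil =>
      refine (cw_nil hw hcov N B).trans ?_
      have := ih [] B
      simp only [List.length_nil, Nat.choose_zero_right, Nat.cast_one, List.map_nil,
        List.prod_nil, mul_one, one_mul, Nat.sub_zero] at this ⊢
      rw [pow_succ, mul_comm]
      exact mul_le_mul_of_nonneg_right this hV
    | cons c g =>
      refine (cw_cons hw hcov N c g B).trans ?_
      have h1 := mul_le_mul_of_nonneg_left (ih g c) (hw c)
      have h2 := mul_le_mul_of_nonneg_left (ih (c :: g) B) hV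
      refine (add_le_add h1 h2).trans (le_of_eq ?_)
      rw [List.length_cons, List.map_cons, List.prod_cons, Nat.add_sub_add_right]
      rcases Nat.lt_or_ge g.length N with h | h
      · have e : N - g.length = (N - (g.length + 1)) + 1 := by omega
        rw [Nat.choose_succ_succ, e, pow_succ]
        push_cast
        ring
      · rw [Nat.choose_succ_succ, Nat.choose_eq_zero_of_lt (show N < g.length + 1 by omega)]
        push_cast
        ring

end Count

/-- the counting inequality -/
theorem counting {T : Type*} [Fintype T] (m : T → T → WithBot ℤ) (a0 : T)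
    (w : T → ℝ) (hw : ∀ t, 0 ≤ w t) (L y K : ℝ) (hy : 0 ≤ y) (h0 : m a0 a0 ≠ ⊥)
    (hcov : ∀ a b, m a b ≠ ⊥ → ∃ S : Finset T, (∀ c ∈ S, m a b < m a c + m c b) ∧ L ≤ ∑ c ∈ S, w c)
    (hV : ∀ l : ℕ, ∀ F : Finset (List T), (∀ g ∈ F, g.length = l ∧ Valid m a0 g) →
      ∑ g ∈ F, (g.map w).prod ≤ K * y ^ l) :
    L ≤ y := by
  classical
  have hL : L ≤ ∑ c, w c := by
    obtain ⟨S, -, hS⟩ := hcov a0 a0 h0
    exact hS.trans (Finset.sum_le_sum_of_subset_of_nonneg (Finset.subset_univ S)
      (fun c _ _ => hw c))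
  have hV0 : 0 ≤ (∑ c, w c) - L := sub_nonneg.mpr hL
  -- every word has a position
  have hpos : ∀ u : List T, pos m a0 u a0 ≠ ⊥ := by
    intro u h
    have h1 := pos_mono m a0 (List.nil_sublist u) a0
    rw [h, pos_nil, le_bot_iff] at h1
    exact h0 h1
  have key : ∀ N : ℕ, (∑ c, w c) ^ N ≤ K * ((∑ c, w c) - L + y) ^ N := by
    intro N
    rw [← sum_all]
    -- group by chains
    have h1 : ∑ u ∈ Wd T N, (u.map w).prod =
        ∑ g ∈ (Wd T N).image (fun u => chain m a0 u a0), cw m a0 w N g a0 := by
      rw [← Finset.sum_fiberwise_of_maps_to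
        (g := fun u => chain m a0 u a0) (t := (Wd T N).image (fun u => chain m a0 u a0))
        (fun u hu => Finset.mem_image_of_mem _ hu)]
      refine Finset.sum_congr rfl fun g _ => ?_
      rw [cw, Finset.sum_filter]
      refine Finset.sum_congr rfl fun u _ => ?_
      by_cases h : chain m a0 u a0 = g
      · rw [if_pos h, if_pos ⟨h, hpos u⟩]
      · rw [if_neg h, if_neg (fun h' => h h'.1)]
    have h2 : ∀ g ∈ (Wd T N).image (fun u => chain m a0 u a0), g.length ∈ Finset.range (N + 1) ∧
        Valid m a0 g := by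
      intro g hg
      rw [Finset.mem_image] at hg
      obtain ⟨u, hu, rfl⟩ := hg
      refine ⟨?_, (chain_valid m a0 u a0 (hpos u)).1⟩
      rw [Finset.mem_range, Nat.lt_succ_iff, ← length_Wd N u hu]
      exact (chain_sublist m a0 u a0).length_le
    rw [h1, ← Finset.sum_fiberwise_of_maps_to (g := List.length) (t := Finset.range (N + 1))
      (fun g hg => (h2 g hg).1), add_comm ((∑ c, w c) - L) y, add_pow, Finset.mul_sum]
    refine Finset.sum_le_sum fun l _ => ?_
    have h3 : ∀ g ∈ ((Wd T N).image (fun u => chain m a0 u a0)).filter (fun g => g.length = l),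
        cw m a0 w N g a0 ≤ ((N.choose l : ℝ) * ((∑ c, w c) - L) ^ (N - l)) * (g.map w).prod := by
      intro g hg
      have hgl := (Finset.mem_filter.mp hg).2
      have := cw_le (m := m) (a0 := a0) hw hL hcov N g a0
      rw [hgl] at this
      linarith
    refine (Finset.sum_le_sum h3).trans ?_
    rw [← Finset.mul_sum]
    have h4 := hV l (((Wd T N).image (fun u => chain m a0 u a0)).filter (fun g => g.length = l))
      (fun g hg => ⟨(Finset.mem_filter.mp hg).2, (h2 g (Finset.mem_filter.mp hg).1).2⟩)
    have h5 : 0 ≤ (N.choose l : ℝ) * ((∑ c, w c) - L) ^ (N - l) := by positivity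
    refine (mul_le_mul_of_nonneg_left h4 h5).trans (le_of_eq ?_)
    ring
  by_contra hlt
  push Not at hlt
  set W := ∑ c, w c with hW
  set v := W - L + y with hv
  have hv0 : 0 ≤ v := by linarith
  have hvW : v < W := by linarith
  have hK : 1 ≤ K := by
    have := key 0
    simpa using this
  rcases eq_or_lt_of_le hv0 with h | h
  · have := key 1
    rw [← h] at this
    simp only [pow_one, mul_zero] at this
    linarith
  · have hr : 1 < W / v := (one_lt_div h).mpr hvW
    obtain ⟨N, hN⟩ := pow_unbounded_of_one_lt K hr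
    have h1 := key N
    rw [div_pow, lt_div_iff₀ (pow_pos h N)] at hN
    linarith

end Pool.Agent.Work.MP_376faf_co_sum
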