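import Pool.Agent.Work.MP_376faf_co.Final
import Pool.Agent.Work.MP_376faf_co_sum.Heap

/-! Polygons on a cylinder as letters; valid chains give pairs of self-avoiding walks. -/

set_option autoImplicit false

namespace Pool.Agent.Work.MP_376faf_co_sum

open Pool.Agent.Work.MP_376faf_co

/-- a polygon together with a height on the cylinder -/
abbrev Ltr (M : ℕ) := List Pt × ZMod M

/-- two points on the same height of the cylinder -/
def Face {M : ℕ} (a a' : Ltr M) (p q : Pt) : Prop :=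
  p ∈ a.1 ∧ q ∈ a'.1 ∧ ((p.2 : ℤ) : ZMod M) + a.2 = ((q.2 : ℤ) : ZMod M) + a'.2

noncomputable def mL {M : ℕ} (a a' : Ltr M) : WithBot ℤ :=
  ((a.1.toFinset ×ˢ a'.1.toFinset).filter
    (fun x => ((x.1.2 : ℤ) : ZMod M) + a.2 = ((x.2.2 : ℤ) : ZMod M) + a'.2)).sup
    (fun x => ((x.1.1 - x.2.1 + 1 : ℤ) : WithBot ℤ))

theorem le_mL {M : ℕ} {a a' : Ltr M} {p q : Pt} (h : Face a a' p q) :
    ((p.1 - q.1 + 1 : ℤ) : WithBot ℤ) ≤ mL a a' := by
  unfold mL
  refine Finset.le_sup (f := fun x : Pt × Pt => ((x.1.1 - x.2.1 + 1 : ℤ) : WithBot ℤ))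
    (b := (p, q)) ?_
  simp only [Finset.mem_filter, Finset.mem_product, List.mem_toFinset]
  exact ⟨⟨h.1, h.2.1⟩, h.2.2⟩

theorem mL_att {M : ℕ} {a a' : Ltr M} (h : mL a a' ≠ ⊥) :
    ∃ p q, Face a a' p q ∧ mL a a' = ((p.1 - q.1 + 1 : ℤ) : WithBot ℤ) := by
  unfold mL at *
  set F := (a.1.toFinset ×ˢ a'.1.toFinset).filter
    (fun x => ((x.1.2 : ℤ) : ZMod M) + a.2 = ((x.2.2 : ℤ) : ZMod M) + a'.2) with hF
  have hne : F.Nonempty := by
    rw [Finset.nonempty_iff_ne_empty]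
    intro h0
    rw [h0] at h
    simp at h
  obtain ⟨x, hx, he⟩ := Finset.exists_mem_eq_sup F hne
    (fun x => ((x.1.1 - x.2.1 + 1 : ℤ) : WithBot ℤ))
  rw [hF, Finset.mem_filter, Finset.mem_product, List.mem_toFinset, List.mem_toFinset] at hx
  exact ⟨x.1, x.2, ⟨hx.1.1, hx.1.2, hx.2⟩, he⟩

variable {T : Type*} {M : ℕ} (i : T → Ltr M) (a0 : T)

/-- the distance function on letters -/
noncomputable def mT (a b : T) : WithBot ℤ := mL (i a) (i b)

/-- states built by a chain of letters -/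
def CS : List T → St → Prop
  | [], s => s = ([0], [0], (i a0).1)
  | c :: g, s' => ∃ s, CS g s ∧ IsGood s ∧ Step s s' ∧
      ∃ d : Pt, Placed (i c).1 d s'.2.2 ∧ ((d.2 : ℤ) : ZMod M) = (i c).2

theorem CS_unique (hi : Function.Injective i) (hc : ∀ t, Canon (i t).1) :
    ∀ {g1 g2 : List T} {s : St}, CS i a0 g1 s → CS i a0 g2 s → g1.length = g2.length →
      g1 = g2 := by
  intro g1
  induction g1 with
  | nil =>
    intro g2 s _ _ h
    simp only [List.length_nil] at h
    exact (List.length_eq_zero_iff.1 h.symm).symm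
  | cons c g1 ih =>
    intro g2 s h1 h2 h
    rcases g2 with - | ⟨c', g2⟩
    · simp at h
    obtain ⟨s1, e1, f1, k1, d1, p1, q1⟩ := h1
    obtain ⟨s2, e2, f2, k2, d2, p2, q2⟩ := h2
    have e := step_unique f1 f2 k1 k2
    subst e
    have := ih e1 e2 (by simpa using h)
    subst this
    obtain ⟨r1, r2⟩ := placed_unique (hc _) (hc _) p1 p2
    subst r2
    have : c = c' := hi (Prod.ext r1 (q1.symm.trans q2))
    rw [this]

structure SInv (g : List T) (s : St) (v : Pt) (L0 U0 P0 : List Pt) (d : Pt) : Prop where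
  good : Good s v L0 U0 P0
  placed : Placed (i (lastB a0 g)).1 d (v :: P0)
  base : ((d.2 : ℤ) : ZMod M) = (i (lastB a0 g)).2
  hX : XX (mT i) a0 g = ((d.1 : ℤ) : WithBot ℤ)
  left : ∀ x ∈ P0, x.2 = v.2 → v.1 ≤ x.1
  far : ∀ x, (x ∈ v :: P0 ∨ x ∈ L0 ∨ x ∈ U0) → ∀ B : T, ∀ q ∈ (i B).1,
    ((x.2 : ℤ) : ZMod M) = ((q.2 : ℤ) : ZMod M) + (i B).2 →
      ((x.1 - q.1 + 1 : ℤ) : WithBot ℤ) ≤ pos (mT i) a0 g B

theorem SInv_nil (hc : ∀ t, Canon (i t).1) (h0 : (i a0).2 = 0) :
    ∃ P0, SInv i a0 [] ([0], [0], (i a0).1) 0 [] [] P0 0 := by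
  have hQ := hc a0
  rcases hl : (i a0).1 with - | ⟨v, P0⟩
  · rw [hl] at hQ; simpa using hQ.head
  have hv : v = 0 := by rw [hl] at hQ; simpa using hQ.head
  subst hv
  refine ⟨P0, ⟨⟨rfl, ⟨by simp, by simp⟩, ⟨by simp, by simp⟩, by rw [← hl]; exact hQ.poly, by simp,
    by simp, by simp, by simp⟩, ?_, ?_, ?_, ?_, ?_⟩⟩
  · simp only [lastB, Placed, hl]
    simp only [add_zero, List.map_id']
    exact List.IsRotated.refl _
  · simp [lastB, h0]
  · simp [XX]
  · intro x hx hx2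
    have := hQ.left x (by rw [hl]; simp [hx]) (by simpa using hx2)
    simpa using this
  · intro x hx B q hq he
    have hx' : x ∈ (i a0).1 := by
      rw [hl]
      simpa using hx
    simp only [pos, mT]
    exact le_mL ⟨hx', hq, by rw [h0, add_zero]; exact he⟩

theorem SInv_step (hc : ∀ t, Canon (i t).1) {g : List T} {c : T} {s : St} {v : Pt}
    {L0 U0 P0 : List Pt} {d : Pt} (h : SInv i a0 g s v L0 U0 P0 d)
    (hv : pos (mT i) a0 g c = XX (mT i) a0 g + mT i (lastB a0 g) c)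
    (hb : pos (mT i) a0 g c ≠ ⊥) :
    ∃ s' v' L' U' P' d', SInv i a0 (c :: g) s' v' L' U' P' d' ∧ Step s s' ∧
      wt s' = wt s + ((i c).1.length + 2) := by
  set a := lastB a0 g with ha
  have hm : mT i a c ≠ ⊥ := by
    intro h0
    rw [h0, WithBot.add_bot] at hv
    exact hb hv
  obtain ⟨y, r, hf, hval⟩ := mL_att (a := i a) (a' := i c) hm
  obtain ⟨hy, hr, hyr⟩ := hf
  -- the contact point
  set p : Pt := y + d with hp
  have hpm : p ∈ v :: P0 := (h.placed.mem _).2 ⟨y, hy, rfl⟩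
  set b : ℤ := p.2 - r.2 with hbdef
  have hpos : pos (mT i) a0 g c = ((p.1 - r.1 + 1 : ℤ) : WithBot ℤ) := by
    rw [hv, h.hX]
    change _ + mL (i a) (i c) = _
    rw [hval, ← WithBot.coe_add]
    congr 1
    simp only [hp, Prod.fst_add]
    ring
  have hbM : ((b : ℤ) : ZMod M) = (i c).2 := by
    have h1 := h.base
    rw [← ha] at h1
    rw [← h1] at hyr
    simp only [hbdef, hp, Prod.snd_add]
    push_cast
    rw [hyr]; ring
  have hfar : ∀ x, (x ∈ v :: P0 ∨ x ∈ L0 ∨ x ∈ U0) → ∀ q ∈ (i c).1, x.2 = q.2 + b →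
      x.1 - q.1 ≤ p.1 - r.1 := by
    intro x hx q hq he
    have h1 := h.far x hx c q hq (by rw [he]; push_cast; rw [hbM])
    rw [hpos, WithBot.coe_le_coe] at h1
    omega
  have hmax : IsMaxPair (v :: P0) (i c).1 b p r :=
    ⟨hpm, hr, by simp [hbdef], fun p' hp' q' hq' he => hfar p' (Or.inl hp') q' hq' he⟩
  have hpv : p ≠ v := by
    intro hpv
    obtain ⟨z, hz, hz2⟩ := two_at_height h.good.poly
    have h1 := h.left z hz hz2
    have h2 := hfar z (Or.inl (by simp [hz])) r hr (by rw [hz2, ← hpv]; simp [hbdef])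
    have h3 : z = v := Prod.ext (by rw [← hpv]; rw [← hpv] at h1; omega) hz2
    have h4 := h.good.poly.1
    rw [List.nodup_cons] at h4
    exact h4.1 (h3 ▸ hz)
  obtain ⟨L', U', P0', h1, h2, h3, h4, h5, h6⟩ := place h.good (hc c).poly hmax hpv
    (fun x hx z hz he => by
      have e1 := hfar x (Or.inr (Or.inl hx)) z hz (by rw [← he]; simp)
      have e2 := congrArg Prod.fst he
      simp only [Prod.fst_add] at e2
      omega)
    (fun x hx z hz he => by
      have e1 := hfar x (Or.inr (Or.inr hx)) z hz (by rw [← he]; simp)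
      have e2 := congrArg Prod.fst he
      simp only [Prod.fst_add] at e2
      omega)
  refine ⟨_, _, L', U', P0', (p.1 - r.1 + 1, b), ⟨h2, h3, hbM, hpos, ?_, ?_⟩, h1, ?_⟩
  · intro x hx hx2
    obtain ⟨z, hz, rfl⟩ := (h3.mem x).1 (by simp [hx])
    simp only [Prod.snd_add] at hx2
    have := hfar p (Or.inl hpm) z hz (by simpa using hx2.symm)
    simp only [Prod.fst_add]
    omega
  · intro x hx B q hq he
    simp only [pos]
    rcases hx with hx | hx
    · obtain ⟨z, hz, rfl⟩ := (h3.mem x).1 hx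
      refine le_trans ?_ (le_max_right _ _)
      rw [hpos]
      have hle : ((z.1 - q.1 + 1 : ℤ) : WithBot ℤ) ≤ mT i c B := by
        refine le_mL ⟨hz, hq, ?_⟩
        rw [← he, ← hbM]
        simp only [Prod.snd_add]
        push_cast
        ring
      refine le_trans (le_of_eq ?_) (add_le_add_right hle _)
      rw [← WithBot.coe_add]
      congr 1
      simp only [Prod.fst_add]
      ring
    · refine le_trans ?_ (le_max_left _ _)
      have hx' : x ∈ v :: P0 ∨ x ∈ L0 ∨ x ∈ U0 := h6 x hx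
      exact h.far x hx' B q hq he
  · rw [h.good.eq]
    simp only [wt, List.length_cons]
    omega

theorem exists_state (hc : ∀ t, Canon (i t).1) (h0 : (i a0).2 = 0) :
    ∀ g : List T, Valid (mT i) a0 g → ∃ s v L0 U0 P0 d, CS i a0 g s ∧ SInv i a0 g s v L0 U0 P0 d ∧
      wt s = wt ([0], [0], (i a0).1) + (g.map (fun c => (i c).1.length + 2)).sum := by
  intro g
  induction g with
  | nil =>
    intro _
    obtain ⟨P0, h⟩ := SInv_nil i a0 hc h0
    exact ⟨_, _, _, _, P0, _, rfl, h, by simp⟩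
  | cons c g ih =>
    intro hv
    obtain ⟨hv1, hv2, hv3⟩ := hv
    obtain ⟨s, v, L0, U0, P0, d, h1, h2, h3⟩ := ih hv1
    obtain ⟨s', v', L', U', P', d', k1, k2, k3⟩ := SInv_step i a0 hc h2 hv2 hv3
    refine ⟨s', v', L', U', P', d', ⟨s, h1, ⟨_, _, _, _, h2.good⟩, k2, d', ?_, k1.base⟩, k1, ?_⟩
    · have := k1.placed
      rw [k1.good.eq]
      exact this
    · rw [k3, h3]
      simp only [List.map_cons, List.sum_cons]
      omega

/-- the total weight of valid chains of a given length -/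
theorem valid_bound (hi : Function.Injective i) (hc : ∀ t, Canon (i t).1) (h0 : (i a0).2 = 0)
    {x κ : ℝ} (hx : 0 < x) (hκ : WalkBound x κ) (l : ℕ) (F : Finset (List T))
    (hF : ∀ g ∈ F, g.length = l ∧ Valid (mT i) a0 g) :
    ∑ g ∈ F, (g.map (fun c => x ^ (i c).1.length)).prod ≤
      (κ ^ 3 / x ^ wt ([0], [0], (i a0).1)) * (x⁻¹ ^ 2) ^ l := by
  classical
  have hex : ∀ g : List T, ∃ s : St, Valid (mT i) a0 g → CS i a0 g s ∧ IsGood s ∧
      wt s = wt ([0], [0], (i a0).1) + (g.map (fun c => (i c).1.length + 2)).sum := by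
    intro g
    by_cases hg : Valid (mT i) a0 g
    · obtain ⟨s, v, L0, U0, P0, d, h1, h2, h3⟩ := exists_state i a0 hc h0 g hg
      exact ⟨s, fun _ => ⟨h1, ⟨_, _, _, _, h2.good⟩, h3⟩⟩
    · exact ⟨([], [], []), fun h => absurd h hg⟩
  choose S hS using hex
  have hinj : Set.InjOn S F := by
    intro g1 hg1 g2 hg2 he
    have e1 := hS g1 (hF g1 hg1).2
    have e2 := hS g2 (hF g2 hg2).2
    rw [he] at e1
    exact CS_unique i a0 hi hc e1.1 e2.1 ((hF g1 hg1).1.trans (hF g2 hg2).1.symm)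
  have hb := state_bound hx.le hκ (F.image S) (by
    intro s hs
    obtain ⟨g, hg, rfl⟩ := Finset.mem_image.1 hs
    exact (hS g (hF g hg).2).2.1)
  rw [Finset.sum_image hinj] at hb
  have hpow : ∀ g : List T, x ^ (g.map (fun c => (i c).1.length + 2)).sum =
      (g.map (fun c => x ^ (i c).1.length)).prod * (x ^ 2) ^ g.length := by
    intro g
    induction g with
    | nil => simp
    | cons c g ih =>
      simp only [List.map_cons, List.sum_cons, List.prod_cons, List.length_cons]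
      rw [pow_add, ih, pow_add, pow_succ]
      ring
  have hx0 : 0 < x ^ wt ([0], [0], (i a0).1) := pow_pos hx _
  have hterm : ∀ g ∈ F, (g.map (fun c => x ^ (i c).1.length)).prod =
      x ^ wt (S g) * ((x⁻¹ ^ 2) ^ l / x ^ wt ([0], [0], (i a0).1)) := by
    intro g hg
    obtain ⟨hl, hv⟩ := hF g hg
    rw [(hS g hv).2.2, pow_add, hpow, hl]
    have : (x ^ 2) ^ l * (x⁻¹ ^ 2) ^ l = 1 := by
      rw [← mul_pow, ← mul_pow, mul_inv_cancel₀ hx.ne']; simp
    calc (g.map (fun c => x ^ (i c).1.length)).prod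
        = (g.map (fun c => x ^ (i c).1.length)).prod * ((x ^ 2) ^ l * (x⁻¹ ^ 2) ^ l) *
          (x ^ wt ([0], [0], (i a0).1) / x ^ wt ([0], [0], (i a0).1)) := by
          rw [this, div_self hx0.ne']; ring
      _ = _ := by ring
  rw [Finset.sum_congr rfl hterm, ← Finset.sum_mul]
  calc _ ≤ κ ^ 3 * ((x⁻¹ ^ 2) ^ l / x ^ wt ([0], [0], (i a0).1)) :=
        mul_le_mul_of_nonneg_right hb (by positivity)
    _ = _ := by ring

end Pool.Agent.Work.MP_376faf_co_sum
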