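import Pool.Agent.Work.MP_376faf_co.LWin

/-! Near log-convexity and a summable series give a summable bound by windows. -/

set_option autoImplicit false

namespace Pool.Agent.Work.MP_376faf_co_sum

open Finset Filter Topology Pool.Agent.Work.MP_376faf_co.LC

theorem window_alt {a β : ℕ → ℝ} {D s : ℝ} {n J : ℕ} (hs : 0 < s) (ha : ∀ n, 0 ≤ a n)
    (hD : 1 ≤ D) (hnR : 80 * D + 10 < (n:ℝ)) (hJ1 : 1 ≤ J) (hJ : 20 * D * (J:ℝ) ^ 2 ≤ n)
    (hβ : ∀ m : ℕ, n ≤ 2 * m → β m ≤ D / m * (s / 4))
    (hrel : ∀ m : ℕ, n ≤ 2 * m → (a (m + 1) - β m) ^ 2 ≤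
      (1 + D / m) ^ 2 * (a m * (a (m + 2) + D / m * a (m + 1))))
    (han : s ≤ a n) :
    (∀ j < J, a n / 2 ≤ a (n + j)) ∨ (∀ j < J, a n / 2 ≤ a (n - j)) := by
  have hnpos : (0:ℝ) < n := by linarith
  set ε : ℝ := 10 * D / n with hε
  have hε0 : 0 ≤ ε := by positivity
  have hJ2 : ε * (J : ℝ) ^ 2 ≤ 1 / 2 := by
    rw [hε, div_mul_eq_mul_div, div_le_iff₀ hnpos]
    linarith
  have hJn : 2 * (J : ℝ) ≤ n := by
    have h1 : (1:ℝ) ≤ J := by exact_mod_cast hJ1
    nlinarith
  have hJnN : 2 * J ≤ n := by exact_mod_cast hJn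
  have hhalf : ∀ j : ℕ, j < J → 1 / 2 ≤ 1 - ε * ((j : ℝ) + 1) ^ 2 := by
    intro j hj
    have h1 : ((j : ℝ) + 1) ≤ J := by exact_mod_cast hj
    have h2 : ε * ((j : ℝ) + 1) ^ 2 ≤ ε * (J : ℝ) ^ 2 := by
      apply mul_le_mul_of_nonneg_left _ hε0
      exact pow_le_pow_left₀ (by positivity) h1 2
    linarith
  have hR : ∀ m : ℕ, n ≤ 2 * m → s / 4 ≤ a (m + 1) →
      a (m + 1) ^ 2 * (1 - 4 * (D / m)) ≤ a m * (a (m + 2) + D / m * a (m + 1)) := by
    intro m hm hy
    have hm' : (n:ℝ) ≤ 2 * m := by exact_mod_cast hm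
    have hm0 : (0 : ℝ) < m := by linarith
    apply rel_simpl (by positivity) (by rw [div_le_one hm0]; linarith) _ (ha _) (hrel m hm)
    refine (hβ m hm).trans ?_
    apply mul_le_mul_of_nonneg_left hy (by positivity)
  have hη : ∀ m : ℕ, n ≤ 2 * m → 5 * (D / m) ≤ ε := by
    intro m hm
    have hm' : (n : ℝ) ≤ 2 * m := by exact_mod_cast hm
    have hm0 : (0 : ℝ) < m := by linarith
    rw [hε, ← mul_div_assoc, div_le_div_iff₀ hm0 hnpos]
    nlinarith
  rcases le_or_gt (a n) (a (n + 1)) with hcase | hcase
  · left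
    have hch := chain (b := fun j => a (n + j)) (ε := ε) (J := J) hs hε0 hJ2 (by simpa using han)
      (by
        simp only [add_zero]
        have : ε * a n ≥ 0 := mul_nonneg hε0 (ha n)
        linarith)
      (by
        intro j hj t ht0 ht1 hb hbt
        have e1 : n + (j + 1) = n + j + 1 := by omega
        have e2 : n + (j + 2) = n + j + 2 := by omega
        rw [e1] at hb hbt ⊢
        rw [e2]
        have hr := hR (n + j) (by omega) hb
        have hf := fwd (ha _) (by positivity) (by linarith : 0 < a (n + j + 1)) ht0 ht1 hbt hr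
        have h5 := hη (n + j) (by omega)
        refine le_trans ?_ hf
        apply mul_le_mul_of_nonneg_right _ (ha _)
        linarith)
    intro j hj
    obtain ⟨h1, -⟩ := hch j hj
    simp only [add_zero] at h1
    have h2 := hhalf j hj
    have := mul_le_mul_of_nonneg_right h2 (ha n)
    linarith
  · right
    have hch := chain (b := fun j => a (n - j)) (ε := ε) (J := J) hs hε0 hJ2 (by simpa using han)
      (by
        simp only [Nat.sub_zero]
        have e1 : n - 1 + 1 = n := by omega
        have e2 : n - 1 + 2 = n + 1 := by omega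
        have hr := hR (n - 1) (by omega) (by rw [e1]; linarith)
        rw [e1, e2] at hr
        have hf := bwd (ha _) (by positivity) (by linarith : 0 < a n)
          zero_le_one le_rfl (by rw [one_mul]; exact hcase.le) hr
        have h5 := hη (n - 1) (by omega)
        refine le_trans ?_ hf
        apply mul_le_mul_of_nonneg_right _ (ha _)
        linarith)
      (by
        intro j hj t ht0 ht1 hb hbt
        have e1 : n - (j + 1) = n - (j + 2) + 1 := by omega
        have e2 : n - j = n - (j + 2) + 2 := by omega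
        rw [e1] at hb hbt ⊢
        rw [e2] at hbt
        have hr := hR (n - (j + 2)) (by omega) hb
        have hf := bwd (ha _) (by positivity) (by linarith : 0 < a (n - (j + 2) + 1))
          ht0 ht1 hbt hr
        have h5 := hη (n - (j + 2)) (by omega)
        refine le_trans ?_ hf
        apply mul_le_mul_of_nonneg_right _ (ha _)
        linarith)
    intro j hj
    obtain ⟨h1, -⟩ := hch j hj
    simp only [Nat.sub_zero] at h1
    have h2 := hhalf j hj
    have := mul_le_mul_of_nonneg_right h2 (ha n)
    linarith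

lemma sq_aux1 (k : ℕ) : (k + 1) * (k + 1) + k < (k + 2) ^ 2 := by nlinarith

lemma sq_aux2 (k : ℕ) (hk : 1 ≤ k) : (k - 1) ^ 2 + k ≤ k * k := by
  obtain ⟨r, rfl⟩ : ∃ r, k = r + 1 := ⟨k - 1, by omega⟩
  simp only [Nat.add_sub_cancel]
  nlinarith

/-- sums over the blocks between consecutive squares -/
noncomputable def blk (g : ℕ → ℝ) (k : ℕ) : ℝ := ∑ m ∈ Ico (k ^ 2) ((k + 1) ^ 2), g m

theorem blk_summable {g : ℕ → ℝ} (hg : ∀ n, 0 ≤ g n) (hs : Summable g) : Summable (blk g) := by
  have hnn : ∀ k, 0 ≤ blk g k := fun k => sum_nonneg (fun _ _ => hg _)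
  refine summable_of_sum_range_le hnn (c := ∑' n, g n) (fun K => ?_)
  have : ∑ k ∈ range K, blk g k = ∑ m ∈ range (K ^ 2), g m := by
    induction K with
    | zero => simp
    | succ K ih =>
      rw [sum_range_succ, ih, blk,
        sum_range_add_sum_Ico _ (Nat.pow_le_pow_left (Nat.le_succ K) 2 : K ^ 2 ≤ (K + 1) ^ 2)]
  rw [this]
  exact hs.sum_le_tsum _ (fun _ _ => hg _)

theorem window_sum {b β : ℕ → ℝ} {D C0 ρ : ℝ} {n0 : ℕ} (hb : ∀ n, 0 ≤ b n) (hD : 1 ≤ D)
    (hρ0 : 0 ≤ ρ) (hρ1 : ρ < 1) (hβ : ∀ n, β n ≤ C0 * ρ ^ n)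
    (hrel : ∀ n, n0 ≤ n → (b (n + 1) - β n) ^ 2 ≤
      (1 + D / n) ^ 2 * (b n * (b (n + 2) + D / n * b (n + 1))))
    (hsum : Summable (fun n => b n / √(n:ℝ))) :
    ∃ M : ℕ → ℝ, Summable M ∧ ∀ n, b n ≤ M (Nat.sqrt n) := by
  set g : ℕ → ℝ := fun n => b n / √(n:ℝ) with hg
  have hg0 : ∀ n, 0 ≤ g n := fun n => div_nonneg (hb n) (Real.sqrt_nonneg _)
  have hS := blk_summable hg0 hsum
  have hD0 : 0 < D := by linarith
  -- exponential smallness
  have hexp : ∀ᶠ n : ℕ in atTop, β n ≤ D / (8 * (n:ℝ) ^ 2) := by
    have h1 : Tendsto (fun n : ℕ => (n : ℝ) ^ 2 * ρ ^ n) atTop (𝓝 0) :=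
      tendsto_pow_const_mul_const_pow_of_lt_one 2 hρ0 hρ1
    have h2 : Tendsto (fun n : ℕ => C0 * ((n : ℝ) ^ 2 * ρ ^ n)) atTop (𝓝 0) := by
      have := h1.const_mul C0
      rwa [mul_zero] at this
    filter_upwards [h2.eventually (gt_mem_nhds (by positivity : 0 < D / 8)),
      eventually_gt_atTop 0] with n hn hn0
    have hn' : (0 : ℝ) < n := by exact_mod_cast hn0
    refine (hβ n).trans ?_
    rw [le_div_iff₀ (by positivity)]
    nlinarith
  obtain ⟨n1, hn1⟩ := eventually_atTop.1 hexp
  -- the window constant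
  obtain ⟨q, hq⟩ := exists_nat_gt (20 * D)
  have hq0 : 0 < q := by
    have : (0:ℝ) < q := by linarith
    exact_mod_cast this
  obtain ⟨k1, hk1⟩ := exists_nat_gt (80 * D + 10 + 2 * (n0:ℝ) + 2 * n1 + q)
  set k2 := k1 + 1 with hk2
  set M : ℕ → ℝ := fun k => if k < k2 then ∑ n ∈ Ico (k ^ 2) ((k + 1) ^ 2), b n
    else 1 / (k:ℝ) ^ 2 + 12 * q * (blk g (k - 1) + blk g k + blk g (k + 1)) with hM
  refine ⟨M, ?_, ?_⟩
  · have h1 : Summable (fun k : ℕ => 1 / ((k + k2 : ℕ):ℝ) ^ 2 +
        12 * q * (blk g (k + k2 - 1) + blk g (k + k2) + blk g (k + k2 + 1))) := by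
      refine Summable.add ?_ ?_
      · exact (summable_nat_add_iff k2).2 (Real.summable_one_div_nat_pow.2 (by norm_num))
      · refine Summable.mul_left _ (Summable.add (Summable.add ?_ ?_) ?_)
        · have := (summable_nat_add_iff k1).2 hS
          refine this.congr (fun k => ?_)
          congr 1
        · exact (summable_nat_add_iff k2).2 hS
        · exact (summable_nat_add_iff (k2 + 1)).2 hS
    rw [← summable_nat_add_iff k2]
    refine h1.congr (fun k => ?_)
    simp only [hM]
    rw [if_neg (by omega)]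
  · intro n
    set k := Nat.sqrt n with hk
    have hkn : k * k ≤ n := Nat.sqrt_le n
    have hkn2 : n < (k + 1) * (k + 1) := Nat.lt_succ_sqrt n
    simp only [hM]
    split_ifs with hlt
    · exact single_le_sum (f := b) (fun i _ => hb i)
        (mem_Ico.2 ⟨by rw [sq]; exact hkn, by rw [sq]; exact hkn2⟩)
    · have hkk : k1 < k := by omega
      have hkR : 80 * D + 10 + 2 * (n0:ℝ) + 2 * n1 + q < k := by
        have : (k1:ℝ) < k := by exact_mod_cast hkk
        linarith
      have hn0R : (0 : ℝ) ≤ n0 := Nat.cast_nonneg _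
      have hn1R : (0 : ℝ) ≤ n1 := Nat.cast_nonneg _
      have hqR : (0 : ℝ) < q := by exact_mod_cast hq0
      have hk0 : (0:ℝ) < k := by linarith
      have hk1' : (1:ℝ) < k := by linarith
      have hqk : q < k := by
        have : (q:ℝ) < k := by linarith
        exact_mod_cast this
      have hknR : (k:ℝ) * k ≤ n := by exact_mod_cast hkn
      have hkn' : (k:ℝ) ≤ n := by nlinarith
      have hB0 : ∀ j, 0 ≤ blk g j := fun j => sum_nonneg (fun _ _ => hg0 _)
      have hC0 : 0 ≤ 12 * (q:ℝ) * (blk g (k - 1) + blk g k + blk g (k + 1)) := by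
        have := hB0 (k - 1)
        have := hB0 k
        have := hB0 (k + 1)
        positivity
      rcases le_or_gt (b n) (1 / (k:ℝ) ^ 2) with hsmall | hbig
      · linarith
      have hs0 : 0 < 1 / (k:ℝ) ^ 2 := by positivity
      set J := k / q with hJ
      have hJ1 : 1 ≤ J := (Nat.one_le_div_iff hq0).2 hqk.le
      have hJq : J * q ≤ k := Nat.div_mul_le_self k q
      have hJq2 : k < q * (J + 1) := Nat.lt_mul_div_succ k hq0
      have hJqR : (J:ℝ) * q ≤ k := by exact_mod_cast hJq
      have hJq2R : (k:ℝ) < q * (J + 1) := by exact_mod_cast hJq2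
      have hJ1R : (1:ℝ) ≤ J := by exact_mod_cast hJ1
      have hq1 : (1:ℝ) ≤ q := by exact_mod_cast hq0
      have halt := window_alt (a := b) (β := β) (D := D) (n := n) (J := J) hs0 hb hD
        (by linarith) hJ1
        (by
          have h1 : (J:ℝ) * q * (J * q) ≤ k * k := mul_le_mul hJqR hJqR (by positivity) hk0.le
          have h2 : 20 * D * (J:ℝ) ^ 2 ≤ q * (J:ℝ) ^ 2 :=
            mul_le_mul_of_nonneg_right hq.le (by positivity)
          have h3 : (q:ℝ) * (J:ℝ) ^ 2 ≤ (J:ℝ) * q * (J * q) := by
            have : (q:ℝ) * (J:ℝ) ^ 2 * 1 ≤ q * (J:ℝ) ^ 2 * q :=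
              mul_le_mul_of_nonneg_left hq1 (by positivity)
            nlinarith
          linarith)
        (by
          intro m hm
          have hm' : (n:ℝ) ≤ 2 * m := by exact_mod_cast hm
          have hm0 : (0:ℝ) < m := by linarith
          have hmn1 : n1 ≤ m := by
            have : (n1:ℝ) ≤ m := by linarith
            exact_mod_cast this
          refine (hn1 m hmn1).trans ?_
          have h1 : (k:ℝ) ^ 2 ≤ 2 * m := by nlinarith
          have e : D / (m:ℝ) * (1 / (k:ℝ) ^ 2 / 4) = D / (4 * m * (k:ℝ) ^ 2) := by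
            field_simp
          rw [e]
          apply div_le_div_of_nonneg_left hD0.le (by positivity)
          have h2 := mul_le_mul_of_nonneg_left h1 (by positivity : 0 ≤ 4 * (m:ℝ))
          nlinarith)
        (by
          intro m hm
          have hm' : (n:ℝ) ≤ 2 * m := by exact_mod_cast hm
          apply hrel
          have : (n0:ℝ) ≤ m := by linarith
          exact_mod_cast this)
        hbig.le
      have hJk : J ≤ k := by
        have : J * 1 ≤ J * q := Nat.mul_le_mul_left J hq0
        omega
      have hk1N : 1 ≤ k := by omega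
      have hnN : 0 < n := lt_of_lt_of_le (Nat.mul_pos hk1N hk1N) hkn
      have hA := sq_aux1 k
      have hA' := sq_aux2 k hk1N
      have hkle : k ≤ n := by
        have : k * 1 ≤ k * k := Nat.mul_le_mul_left k hk1N
        omega
      have hup : ∀ m, m ≤ n + J → m < (k + 2) ^ 2 := by
        intro m hm
        have : m < (k + 1) * (k + 1) + k := by omega
        exact this.trans hA
      have hdn : ∀ m, n ≤ m + J → (k - 1) ^ 2 ≤ m := by
        intro m hm
        have : k * k ≤ m + k := by omega
        have h2 := hA'.trans this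
        omega
      -- the three blocks together
      have hU : blk g (k - 1) + blk g k + blk g (k + 1) =
          ∑ m ∈ Ico ((k - 1) ^ 2) ((k + 2) ^ 2), g m := by
        unfold blk
        have e1 : k - 1 + 1 = k := by omega
        rw [e1, sum_Ico_consecutive _ (Nat.pow_le_pow_left (by omega) 2)
          (Nat.pow_le_pow_left (by omega) 2), sum_Ico_consecutive _
          (Nat.pow_le_pow_left (by omega) 2) (Nat.pow_le_pow_left (by omega) 2)]
      have hlow : ∀ m, 0 < m → m < (k + 2) ^ 2 → b n / 2 ≤ b m →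
          b n / (2 * (k + 2)) ≤ g m := by
        intro m hm0 hm hbm
        simp only [hg]
        have hbn : 0 ≤ b n := hb n
        have h1 : √(m:ℝ) ≤ k + 2 := by
          rw [Real.sqrt_le_left (by positivity)]
          exact_mod_cast hm.le
        have h2 : 0 < √(m:ℝ) := Real.sqrt_pos.2 (by exact_mod_cast hm0)
        rw [← div_div]
        exact div_le_div₀ (hb m) hbm h2 h1
      have hJsum : (J:ℝ) * (b n / (2 * (k + 2))) ≤
          blk g (k - 1) + blk g k + blk g (k + 1) := by
        rw [hU]
        rcases halt with hf | hf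
        · calc (J:ℝ) * (b n / (2 * (k + 2))) = ∑ _j ∈ range J, b n / (2 * (k + 2)) := by
                rw [sum_const, card_range, nsmul_eq_mul]
            _ ≤ ∑ j ∈ range J, g (n + j) := by
                refine sum_le_sum (fun j hj => ?_)
                rw [mem_range] at hj
                exact hlow _ (by omega) (hup _ (by omega)) (hf j hj)
            _ = ∑ m ∈ (range J).image (fun j => n + j), g m := by
                rw [sum_image (fun x _ y _ hxy => by simpa using hxy)]
            _ ≤ _ := by
                refine sum_le_sum_of_subset_of_nonneg ?_ (fun _ _ _ => hg0 _)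
                intro m hm
                obtain ⟨j, hj, rfl⟩ := mem_image.1 hm
                rw [mem_range] at hj
                rw [mem_Ico]
                exact ⟨hdn _ (by omega), hup _ (by omega)⟩
        · have hJn : J ≤ n := by omega
          calc (J:ℝ) * (b n / (2 * (k + 2))) = ∑ _j ∈ range J, b n / (2 * (k + 2)) := by
                rw [sum_const, card_range, nsmul_eq_mul]
            _ ≤ ∑ j ∈ range J, g (n - j) := by
                refine sum_le_sum (fun j hj => ?_)
                rw [mem_range] at hj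
                exact hlow _ (by omega) (hup _ (by omega)) (hf j hj)
            _ = ∑ m ∈ (range J).image (fun j => n - j), g m := by
                rw [sum_image]
                intro x hx y hy hxy
                simp only [coe_range, Set.mem_Iio] at hx hy
                simp only at hxy
                omega
            _ ≤ _ := by
                refine sum_le_sum_of_subset_of_nonneg ?_ (fun _ _ _ => hg0 _)
                intro m hm
                obtain ⟨j, hj, rfl⟩ := mem_image.1 hm
                rw [mem_range] at hj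
                rw [mem_Ico]
                exact ⟨hdn _ (by omega), hup _ (by omega)⟩
      -- conclusion
      have hbn : 0 ≤ b n := hb n
      have h3 : b n ≤ 12 * q * (blk g (k - 1) + blk g k + blk g (k + 1)) := by
        have h4 : (k:ℝ) + 2 ≤ 6 * q * J := by
          have h7 : (q:ℝ) * 1 ≤ q * J := mul_le_mul_of_nonneg_left hJ1R hqR.le
          have h8 : (q:ℝ) * (J + 1) = q * J + q := by ring
          linarith
        have h5 : b n = 2 * (k + 2) * (b n / (2 * (k + 2))) := by field_simp
        have h6 : 0 ≤ b n / (2 * (k + 2)) := by positivity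
        calc b n = 2 * (k + 2) * (b n / (2 * (k + 2))) := h5
          _ ≤ 2 * (6 * q * J) * (b n / (2 * (k + 2))) := by
              apply mul_le_mul_of_nonneg_right _ h6
              linarith
          _ = 12 * q * (J * (b n / (2 * (k + 2)))) := by ring
          _ ≤ _ := mul_le_mul_of_nonneg_left hJsum (by positivity)
      linarith

end Pool.Agent.Work.MP_376faf_co_sum
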