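import Pool.Agent.Work.MP_376faf_co.LFinal
import Pool.Agent.Work.MP_376faf_co_sum.Fin
import Pool.Agent.Work.MP_376faf_co_sum.Win

/-! The maxima of n p_{2n} mu^{-2n} over the blocks between consecutive squares are summable. -/

set_option autoImplicit false

namespace Pool.Agent.Work.MP_376faf_co_sum

open Pool.Agent.Work.MP_376faf_co Pool.Agent.Work.MP_376faf_co.LC Filter Topology

theorem window_main {μ : ℝ} (hμ : IsMu μ) :
    ∃ M : ℕ → ℝ, Summable M ∧ ∀ n : ℕ, n * aa μ n ≤ M (Nat.sqrt n) := by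
  have hμ2 := mu_ge hμ.2
  have hμ0 : 0 < μ := by linarith
  have hb : ∀ n : ℕ, 0 ≤ NN (2 * n) / μ ^ (2 * n) := fun n =>
    div_nonneg (NN_nonneg _) (by positivity)
  have hsum : Summable (fun n : ℕ => NN (2 * n) / μ ^ (2 * n) / √(n:ℝ)) := by
    rw [← summable_nat_add_iff 2]
    refine Summable.of_nonneg_of_le (fun n => div_nonneg (hb _) (Real.sqrt_nonneg _)) ?_
      ((rr_summable hμ).mul_left 4)
    intro n
    have hn1 : 1 ≤ n + 2 := by omega
    have hn0 : (0:ℝ) < ((n + 2 : ℕ) : ℝ) := by exact_mod_cast hn1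
    have hs0 : 0 < √((n + 2 : ℕ) : ℝ) := Real.sqrt_pos.2 hn0
    have hss : √((n + 2 : ℕ) : ℝ) * √((n + 2 : ℕ) : ℝ) = ((n + 2 : ℕ) : ℝ) :=
      Real.mul_self_sqrt hn0.le
    have h1 := aa_eq (μ := μ) hn1
    rw [div_eq_iff hn0.ne'] at h1
    rw [h1, div_le_iff₀ hs0]
    have h2 := sqrt_row hn1
    have h3 : √((n + 2 : ℕ) : ℝ) ≤ √(2 * ((n + 2 : ℕ) : ℝ)) := Real.sqrt_le_sqrt (by linarith)
    have h4 : √((n + 2 : ℕ) : ℝ) * aa μ (n + 2) ≤ rr μ (n + 2) := by
      unfold aa rr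
      rw [mul_div_assoc', mul_div_assoc']
      have hp : (0:ℝ) ≤ μ ^ (2 * (n + 2)) := by positivity
      refine div_le_div_of_nonneg_right (div_le_div_of_nonneg_right ?_ (by positivity)) hp
      exact (mul_le_mul_of_nonneg_right h3 (Nat.cast_nonneg _)).trans h2
    calc 4 * aa μ (n + 2) * ((n + 2 : ℕ) : ℝ) =
          4 * (√((n + 2 : ℕ) : ℝ) * aa μ (n + 2)) * √((n + 2 : ℕ) : ℝ) := by
          calc 4 * aa μ (n + 2) * ((n + 2 : ℕ) : ℝ) =
                4 * aa μ (n + 2) * (√((n + 2 : ℕ) : ℝ) * √((n + 2 : ℕ) : ℝ)) := by rw [hss]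
            _ = _ := by ring
      _ ≤ 4 * rr μ (n + 2) * √((n + 2 : ℕ) : ℝ) := by
          apply mul_le_mul_of_nonneg_right _ hs0.le
          linarith
  obtain ⟨M, hM1, hM2⟩ := window_sum (b := fun n : ℕ => NN (2 * n) / μ ^ (2 * n))
    (β := fun n => bad (2 * n + 2) (n / 200) / μ ^ (2 * n + 2)) (D := 30000) (C0 := 14)
    (ρ := 983 / 1000) (n0 := 4000) hb (by norm_num) (by norm_num) (by norm_num)
    (beta_bound hμ2) (rel_scaled hμ2) hsum
  refine ⟨fun k => |M k|, hM1.abs, fun n => ?_⟩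
  rcases Nat.eq_zero_or_pos n with rfl | hn
  · simp
  · have hn0 : (0:ℝ) < n := by exact_mod_cast hn
    have h1 := aa_eq (μ := μ) hn
    rw [div_eq_iff hn0.ne'] at h1
    have h2 := (hM2 n).trans (le_abs_self _)
    rw [h1] at h2
    have h3 := mul_nonneg hn0.le (aa_nonneg hμ.1 n)
    linarith

end Pool.Agent.Work.MP_376faf_co_sum
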